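import Mathlib
import Pool.Agent.H17.HCl

set_option autoImplicit false

namespace Pool.Agent.Results.MP_b47357_gt.Neg
open Set Filter Topology Pool.Agent.H17.HCl

def WL (X : Type) [TopologicalSpace X] : Prop :=
  ∀ 𝒰 : Set (Set X), (∀ U ∈ 𝒰, IsOpen U) → ⋃₀ 𝒰 = univ →
    ∃ 𝒱 ⊆ 𝒰, 𝒱.Countable ∧ Dense (⋃₀ 𝒱)

def ProdWL (X : Type) [TopologicalSpace X] : Prop :=
  ∀ (Y : Type) [TopologicalSpace Y], WL Y → WL (X × Y)

def WAlster (X : Type) [TopologicalSpace X] : Prop :=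
  ∀ 𝒰 : Set (Set X), (∀ U ∈ 𝒰, IsGδ U) → univ ∉ 𝒰 →
    (∀ K : Set X, IsCompact K → ∃ U ∈ 𝒰, K ⊆ U) → ∃ 𝒱 ⊆ 𝒰, 𝒱.Countable ∧ Dense (⋃₀ 𝒱)

theorem result : ∃ (X : Type) (_ : TopologicalSpace X), T2Space X ∧ ProdWL X ∧ ¬ WAlster X := by
  refine ⟨X, inferInstance, inferInstance, fun Y _ hY 𝒲 h1 h2 => ?_, fun h => ?_⟩
  · have h3 : ∀ (y : Y) (x : X), ∃ W ∈ 𝒲, ∃ U P, IsOpen U ∧ IsOpen P ∧ x ∈ U ∧ y ∈ P ∧
        U ×ˢ P ⊆ W := fun y x => by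
      obtain ⟨W, hW, hx⟩ := h2.ge (mem_univ (x, y))
      exact ⟨W, hW, isOpen_prod_iff.1 (h1 W hW) x y hx⟩
    choose W hW U P hU hP hx hy hs using h3
    choose t ht using fun y => hclosed (U y) fun x => ⟨hU y x, hx y x⟩
    obtain ⟨𝒱, h4, h5, h6⟩ := hY (range fun y => ⋂ x ∈ t y, P y x) (by
      rintro _ ⟨y, rfl⟩
      exact isOpen_biInter_finset fun x _ => hP y x) (eq_univ_of_forall fun y =>
        ⟨_, ⟨y, rfl⟩, mem_iInter₂.2 fun x _ => hy y x⟩)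
    have h7 : ∀ V ∈ 𝒱, ∃ y, (⋂ x ∈ t y, P y x) = V := h4
    choose y hy' using h7
    have := h5.to_subtype
    refine ⟨⋃ V : 𝒱, W (y V V.2) '' t (y V V.2), iUnion_subset ?_,
      countable_iUnion fun V => (Finset.countable_toSet _).image _, ?_⟩
    · rintro V _ ⟨x, -, rfl⟩
      exact hW _ _
    · refine dense_iff_inter_open.2 fun O hO ⟨p, hp⟩ => ?_
      obtain ⟨A, B, hA, hB, ha, hb, hAB⟩ := isOpen_prod_iff.1 hO p.1 p.2 hp
      obtain ⟨b, hb1, V, hV, hb2⟩ := h6.inter_open_nonempty B hB ⟨_, hb⟩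
      obtain ⟨a, ha1, ha2⟩ := (ht (y V hV)).inter_open_nonempty A hA ⟨_, ha⟩
      obtain ⟨x, hx1, hx2⟩ := mem_iUnion₂.1 ha2
      rw [← hy' V hV] at hb2
      exact ⟨(a, b), hAB ⟨ha1, hb1⟩, _, mem_iUnion.2 ⟨⟨V, hV⟩, x, hx1, rfl⟩,
        hs _ _ ⟨hx2, mem_iInter₂.1 hb2 x hx1⟩⟩
  · obtain ⟨𝒱, h1, h2, h3⟩ := h {F | F.Finite} (fun F hF =>
      by
        have h1 : (pr '' F).Finite := Set.Finite.image _ hF
        have h2 := h1.isClosed.isGδ.preimage cont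
        rwa [preimage_image_eq (f := pr) _ fun _ _ h => h] at h2)
      (fun h => not_dense (show univ.Finite from h).countable dense_univ)
      (fun K hK => ⟨K, Pool.Agent.H17.Telg.fin_of_compact closed_c hK, subset_rfl⟩)
    exact not_dense (h2.sUnion fun F hF => (show F.Finite from h1 hF).countable) h3

end Pool.Agent.Results.MP_b47357_gt.Neg
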